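import Pool.Agent.Lib.MP_7c1d9a_an.Weights

/-!
The reservoir polynomials and the coefficient bound for the square.
-/

set_option autoImplicit false

open Finset Polynomial Nat

namespace Pool.Agent.MP7c1d9a

/-- Coefficientwise order on real polynomials. -/
def cle (p q : ℝ[X]) : Prop := ∀ m, p.coeff m ≤ q.coeff m

lemma cle_refl (p : ℝ[X]) : cle p p := fun _ => le_rfl

lemma cle_trans {p q r : ℝ[X]} (h1 : cle p q) (h2 : cle q r) : cle p r :=
  fun m => (h1 m).trans (h2 m)

lemma cle_sum {ι : Type*} (s : Finset ι) (f g : ι → ℝ[X]) (h : ∀ i ∈ s, cle (f i) (g i)) :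
    cle (∑ i ∈ s, f i) (∑ i ∈ s, g i) := by
  intro m
  rw [finsetSum_coeff, finsetSum_coeff]
  exact Finset.sum_le_sum fun i hi => h i hi m

lemma cnn_sum {ι : Type*} (s : Finset ι) (f : ι → ℝ[X]) (h : ∀ i ∈ s, cle 0 (f i)) :
    cle 0 (∑ i ∈ s, f i) := by
  intro m
  rw [finsetSum_coeff, coeff_zero]
  exact Finset.sum_nonneg fun i hi => by simpa using h i hi m

lemma cle_mul {p p' q q' : ℝ[X]} (hp : cle 0 p) (hpp : cle p p') (hqq : cle q q')
    (hq : cle 0 q) : cle (p * q) (p' * q') := by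
  intro m
  rw [coeff_mul, coeff_mul]
  refine Finset.sum_le_sum fun x _ => ?_
  have h1 := hp x.1
  have h2 := hpp x.1
  have h3 := hqq x.2
  have h4 := hq x.2
  rw [coeff_zero] at h1 h4
  exact mul_le_mul h2 h3 h4 (h1.trans h2)

lemma cnn_mul {p q : ℝ[X]} (hp : cle 0 p) (hq : cle 0 q) : cle 0 (p * q) := by
  intro m
  rw [coeff_mul, coeff_zero]
  refine Finset.sum_nonneg fun x _ => ?_
  exact mul_nonneg (by simpa using hp x.1) (by simpa using hq x.2)

lemma cnn_C {a : ℝ} (ha : 0 ≤ a) : cle 0 (C a) := by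
  intro m; rw [coeff_C, coeff_zero]; split_ifs <;> simp [ha]

lemma cle_C {a b : ℝ} (hab : a ≤ b) : cle (C a) (C b) := by
  intro m; rw [coeff_C, coeff_C]; split_ifs <;> simp [hab]

lemma cnn_X_pow (n : ℕ) : cle 0 ((X : ℝ[X]) ^ n) := by
  intro m; rw [coeff_X_pow, coeff_zero]; split_ifs <;> norm_num

lemma cnn_pow {p : ℝ[X]} (hp : cle 0 p) (n : ℕ) : cle 0 (p ^ n) := by
  induction n with
  | zero => simpa using cnn_C (zero_le_one (α := ℝ))
  | succ n ih => rw [pow_succ]; exact cnn_mul ih hp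

lemma cnn_arcPoly (k : ℕ) : cle 0 (arcPoly k) := by
  unfold arcPoly
  refine cnn_sum _ _ fun p _ => cnn_mul (cnn_C (mul_nonneg (wt_nonneg _) (wt_nonneg _))) (cnn_X_pow _)

variable {r : ℕ}

/-- The label polynomial `∑_{i ∈ s} X^(D^i)`. -/
noncomputable def gen (s : Finset (Fin r)) (D : ℕ) : ℝ[X] := ∑ i ∈ s, X ^ (D ^ (i : ℕ))

lemma cnn_gen (s : Finset (Fin r)) (D : ℕ) : cle 0 (gen s D) :=
  cnn_sum _ _ fun _ _ => cnn_X_pow _

lemma gen_eval_one (s : Finset (Fin r)) (D : ℕ) : (gen s D).eval 1 = s.card := by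
  simp [gen, eval_finsetSum]

lemma prod_X_pow (s : Finset (Fin r)) (D : ℕ) (u : Fin r → ℕ) (hu : ∀ i, u i ≠ 0 → i ∈ s) :
    ∏ i ∈ s, ((X : ℝ[X]) ^ (D ^ (i : ℕ))) ^ u i = X ^ (Behrend.map D u) := by
  have h1 : Behrend.map D u = ∑ i ∈ s, D ^ (i : ℕ) * u i := by
    rw [Behrend.map_apply]
    rw [← Finset.sum_subset (Finset.subset_univ s)]
    · exact Finset.sum_congr rfl fun i _ => mul_comm _ _
    · intro i _ his
      have : u i = 0 := by
        by_contra h; exact his (hu i h)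
      simp [this]
  rw [h1, ← Finset.prod_pow_eq_pow_sum]
  exact Finset.prod_congr rfl fun i _ => by rw [← pow_mul]

lemma multinomial_le (s : Finset (Fin r)) (j : ℕ) (u : Fin r → ℕ) (hu : ∑ i ∈ s, u i = j) :
    (multinomial s u : ℝ) ≤ (j ! : ℝ) := by
  have h := multinomial_spec s u
  rw [hu] at h
  have h1 : multinomial s u ≤ j ! := by
    rw [← h]
    exact Nat.le_mul_of_pos_left _ (Finset.prod_pos fun i _ => Nat.factorial_pos _)
  exact_mod_cast h1

/-- The power of a label polynomial is bounded by `j!` times the sum of distinct monomials. -/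
lemma gen_pow_cle (s : Finset (Fin r)) (D j : ℕ) :
    cle (gen s D ^ j) (C (j ! : ℝ) * ∑ u ∈ piAntidiag s j, X ^ (Behrend.map D u)) := by
  have h : gen s D ^ j = ∑ u ∈ piAntidiag s j, C (multinomial s u : ℝ) * X ^ (Behrend.map D u) := by
    unfold gen
    rw [Finset.sum_pow_eq_sum_piAntidiag]
    refine Finset.sum_congr rfl fun u hu => ?_
    rw [mem_piAntidiag] at hu
    rw [prod_X_pow s D u hu.2]
    simp
  rw [h, Finset.mul_sum]
  refine cle_sum _ _ _ fun u hu => ?_
  rw [mem_piAntidiag] at hu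
  exact cle_mul (cnn_C (by positivity)) (cle_C (multinomial_le s j u hu.1)) (cle_refl _) (cnn_X_pow _)

/-- Sum of distinct monomials of the reservoir. -/
noncomputable def mons (A B : Finset (Fin r)) (D j l : ℕ) : ℝ[X] :=
  ∑ uv ∈ piAntidiag A j ×ˢ piAntidiag B l, X ^ (Behrend.map D uv.1 + Behrend.map D uv.2)

lemma cnn_mons (A B : Finset (Fin r)) (D j l : ℕ) : cle 0 (mons A B D j l) :=
  cnn_sum _ _ fun _ _ => cnn_X_pow _

lemma gen_mul_cle (A B : Finset (Fin r)) (D j l : ℕ) :
    cle (gen A D ^ j * gen B D ^ l) (C ((j ! : ℝ) * (l ! : ℝ)) * mons A B D j l) := by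
  have h := cle_mul (cnn_pow (cnn_gen A D) j) (gen_pow_cle A D j) (gen_pow_cle B D l)
    (cnn_pow (cnn_gen B D) l)
  have e : C (j ! : ℝ) * (∑ u ∈ piAntidiag A j, (X : ℝ[X]) ^ (Behrend.map D u)) *
      (C (l ! : ℝ) * ∑ v ∈ piAntidiag B l, X ^ (Behrend.map D v))
      = C ((j ! : ℝ) * (l ! : ℝ)) * mons A B D j l := by
    rw [mons, Finset.sum_product, C_mul]
    have : ∀ x ∈ piAntidiag A j, ∑ y ∈ piAntidiag B l, (X : ℝ[X]) ^ (Behrend.map D x + Behrend.map D y)
        = X ^ (Behrend.map D x) * ∑ y ∈ piAntidiag B l, X ^ (Behrend.map D y) := by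
      intro x _
      rw [Finset.mul_sum]
      exact Finset.sum_congr rfl fun y _ => pow_add _ _ _
    rw [Finset.sum_congr rfl this, ← Finset.sum_mul]
    ring
  rw [e] at h
  exact h

/-- The polynomial of the construction. -/
noncomputable def bigP (A B : Finset (Fin r)) (D T n n' : ℕ) (a : ℕ → ℝ) : ℝ[X] :=
  ∑ k ∈ range (T + 1), C (a k) * arcPoly k * (gen A D ^ (n + k) * gen B D ^ (n' - k))

/-- The dominating multiplicity free polynomial. -/
noncomputable def domP (A B : Finset (Fin r)) (D T n n' : ℕ) : ℝ[X] :=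
  ∑ s ∈ range (2 * T + 1), (∑ y ∈ range (s + 1), (X : ℝ[X]) ^ y) *
    mons A B D (2 * n + s) (2 * n' - s)

lemma cnn_bigP (A B : Finset (Fin r)) (D T n n' : ℕ) (a : ℕ → ℝ) (ha : ∀ k, 0 ≤ a k) :
    cle 0 (bigP A B D T n n' a) := by
  unfold bigP
  refine cnn_sum _ _ fun k _ => ?_
  exact cnn_mul (cnn_mul (cnn_C (ha k)) (cnn_arcPoly k))
    (cnn_mul (cnn_pow (cnn_gen A D) _) (cnn_pow (cnn_gen B D) _))

lemma bigP_eval_one (A B : Finset (Fin r)) (D T n n' : ℕ) (a : ℕ → ℝ) {N : ℕ}
    (hA : A.card = N) (hB : B.card = N) (hT : T ≤ n') :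
    (bigP A B D T n n' a).eval 1 = (∑ k ∈ range (T + 1), a k) * (N : ℝ) ^ (n + n') := by
  unfold bigP
  rw [eval_finsetSum, Finset.sum_mul]
  refine Finset.sum_congr rfl fun k hk => ?_
  rw [Finset.mem_range] at hk
  simp only [eval_mul, eval_C, eval_pow, gen_eval_one, arcPoly_eval_one, hA, hB, mul_one]
  rw [← pow_add]
  congr 2
  omega

lemma bigP_sq_cle (A B : Finset (Fin r)) (D T n n' : ℕ) (a : ℕ → ℝ) (ha : ∀ k, 0 ≤ a k)
    (hT : T ≤ n') {l : ℝ} (hl : 0 ≤ l)
    (hal : ∀ k k' : ℕ, k ≤ T → k' ≤ T →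
      a k * a k' * (((2 * n + (k + k'))! : ℝ) * ((2 * n' - (k + k'))! : ℝ)) ≤ l) :
    cle (bigP A B D T n n' a * bigP A B D T n n' a) (C l * domP A B D T n n') := by
  have h1 : bigP A B D T n n' a * bigP A B D T n n' a
      = ∑ p ∈ range (T + 1) ×ˢ range (T + 1), (C (a p.1 * a p.2) * (arcPoly p.1 * arcPoly p.2)) *
        (gen A D ^ (2 * n + (p.1 + p.2)) * gen B D ^ (2 * n' - (p.1 + p.2))) := by
    unfold bigP
    rw [Finset.sum_mul_sum, Finset.sum_product]
    refine Finset.sum_congr rfl fun k hk => Finset.sum_congr rfl fun k' hk' => ?_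
    rw [Finset.mem_range] at hk hk'
    have e1 : 2 * n + (k + k') = (n + k) + (n + k') := by ring
    have e2 : 2 * n' - (k + k') = (n' - k) + (n' - k') := by omega
    simp only [e1, e2, pow_add (gen A D) (n + k) (n + k'), pow_add (gen B D) (n' - k) (n' - k'),
      C_mul]
    ring
  have h2 : cle (bigP A B D T n n' a * bigP A B D T n n' a)
      (∑ p ∈ range (T + 1) ×ˢ range (T + 1), (C l * (arcPoly p.1 * arcPoly p.2)) *
        mons A B D (2 * n + (p.1 + p.2)) (2 * n' - (p.1 + p.2))) := by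
    rw [h1]
    refine cle_sum _ _ _ fun p hp => ?_
    rw [Finset.mem_product, Finset.mem_range, Finset.mem_range] at hp
    have hp1 : p.1 ≤ T := by omega
    have hp2 : p.2 ≤ T := by omega
    set j := 2 * n + (p.1 + p.2)
    set k := 2 * n' - (p.1 + p.2)
    have c1 : cle ((C (a p.1 * a p.2) * (arcPoly p.1 * arcPoly p.2)) *
        (gen A D ^ j * gen B D ^ k))
        ((C (a p.1 * a p.2) * (arcPoly p.1 * arcPoly p.2)) *
          (C ((j ! : ℝ) * (k ! : ℝ)) * mons A B D j k)) := by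
      refine cle_mul ?_ (cle_refl _) (gen_mul_cle A B D j k) ?_
      · exact cnn_mul (cnn_C (mul_nonneg (ha _) (ha _))) (cnn_mul (cnn_arcPoly _) (cnn_arcPoly _))
      · exact cnn_mul (cnn_pow (cnn_gen A D) _) (cnn_pow (cnn_gen B D) _)
    refine cle_trans c1 ?_
    have e3 : (C (a p.1 * a p.2) * (arcPoly p.1 * arcPoly p.2)) *
          (C ((j ! : ℝ) * (k ! : ℝ)) * mons A B D j k)
        = C (a p.1 * a p.2 * ((j ! : ℝ) * (k ! : ℝ))) *
          ((arcPoly p.1 * arcPoly p.2) * mons A B D j k) := by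
      rw [C_mul (a := a p.1 * a p.2)]; ring
    have e4 : (C l * (arcPoly p.1 * arcPoly p.2)) * mons A B D j k
        = C l * ((arcPoly p.1 * arcPoly p.2) * mons A B D j k) := by ring
    rw [e3, e4]
    refine cle_mul (cnn_C ?_) (cle_C (hal _ _ hp1 hp2)) (cle_refl _) ?_
    · exact mul_nonneg (mul_nonneg (ha _) (ha _)) (by positivity)
    · exact cnn_mul (cnn_mul (cnn_arcPoly _) (cnn_arcPoly _)) (cnn_mons _ _ _ _ _)
  refine cle_trans h2 ?_
  have h3 : C l * domP A B D T n n' = ∑ s ∈ range (2 * T + 1), ∑ p ∈ antidiagonal s,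
      (C l * (arcPoly p.1 * arcPoly p.2)) * mons A B D (2 * n + (p.1 + p.2)) (2 * n' - (p.1 + p.2)) := by
    unfold domP
    rw [Finset.mul_sum]
    refine Finset.sum_congr rfl fun s _ => ?_
    have : ∀ p ∈ antidiagonal s, (C l * (arcPoly p.1 * arcPoly p.2)) *
        mons A B D (2 * n + (p.1 + p.2)) (2 * n' - (p.1 + p.2))
        = (arcPoly p.1 * arcPoly p.2) * (C l * mons A B D (2 * n + s) (2 * n' - s)) := by
      intro p hp
      rw [mem_antidiagonal.1 hp]; ring
    rw [Finset.sum_congr rfl this, ← Finset.sum_mul, arcPoly_conv]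
    ring
  rw [h3]
  intro m
  rw [finsetSum_coeff]
  simp only [finsetSum_coeff]
  rw [← Finset.sum_fiberwise_of_maps_to (s := range (T + 1) ×ˢ range (T + 1))
    (t := range (2 * T + 1)) (g := fun p => p.1 + p.2)]
  · refine Finset.sum_le_sum fun s _ => ?_
    refine Finset.sum_le_sum_of_subset_of_nonneg ?_ ?_
    · intro p hp
      rw [Finset.mem_filter] at hp
      exact mem_antidiagonal.2 hp.2
    · intro p _ _
      have : cle 0 ((C l * (arcPoly p.1 * arcPoly p.2)) *
          mons A B D (2 * n + (p.1 + p.2)) (2 * n' - (p.1 + p.2))) :=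
        cnn_mul (cnn_mul (cnn_C hl) (cnn_mul (cnn_arcPoly _) (cnn_arcPoly _))) (cnn_mons _ _ _ _ _)
      simpa using this m
  · intro p hp
    rw [Finset.mem_product, Finset.mem_range, Finset.mem_range] at hp
    rw [Finset.mem_range]; omega

/-- Index set of the monomials of `domP` (with `e` extra positions for `y`). -/
def idx (A B : Finset (Fin r)) (T n n' e : ℕ) :
    Finset (Σ _ : ℕ, ℕ × ((Fin r → ℕ) × (Fin r → ℕ))) :=
  (range (2 * T + 1)).sigma fun s =>
    range (s + e) ×ˢ (piAntidiag A (2 * n + s) ×ˢ piAntidiag B (2 * n' - s))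

/-- Exponent attached to an index. -/
def expo (D : ℕ) (x : Σ _ : ℕ, ℕ × ((Fin r → ℕ) × (Fin r → ℕ))) : ℕ :=
  x.2.1 + (Behrend.map D x.2.2.1 + Behrend.map D x.2.2.2)

lemma domP_eq (A B : Finset (Fin r)) (D T n n' : ℕ) :
    domP A B D T n n' = ∑ x ∈ idx A B T n n' 1, (X : ℝ[X]) ^ (expo D x) := by
  unfold domP idx
  rw [Finset.sum_sigma]
  refine Finset.sum_congr rfl fun s _ => ?_
  rw [Finset.sum_product, Finset.sum_mul]
  refine Finset.sum_congr rfl fun y _ => ?_
  rw [mons, Finset.mul_sum]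
  exact Finset.sum_congr rfl fun uv _ => by simp only [expo, pow_add]

lemma domP_coeff (A B : Finset (Fin r)) (D T n n' m : ℕ) :
    (domP A B D T n n').coeff m = ((idx A B T n n' 1).filter (fun x => expo D x = m)).card := by
  rw [domP_eq, finsetSum_coeff]
  simp only [coeff_X_pow]
  rw [Finset.sum_ite, Finset.sum_const_zero, add_zero, Finset.sum_const, nsmul_eq_mul, mul_one]
  congr 2
  ext x; simp [eq_comm]

lemma digit_le {s : Finset (Fin r)} {j : ℕ} {u : Fin r → ℕ} (hu : u ∈ piAntidiag s j) (i : Fin r) :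
    u i ≤ j := by
  rw [mem_piAntidiag] at hu
  by_cases h : u i = 0
  · omega
  · have his := hu.2 i h
    rw [← hu.1]
    exact Finset.single_le_sum (fun _ _ => Nat.zero_le _) his

lemma expo_eq_map {q : ℕ} (D : ℕ) (x : Σ _ : ℕ, ℕ × ((Fin (q + 1) → ℕ) × (Fin (q + 1) → ℕ))) :
    expo D x = Behrend.map D (Pi.single 0 x.2.1 + x.2.2.1 + x.2.2.2) := by
  have h0 : Behrend.map D (Pi.single (0 : Fin (q + 1)) x.2.1) = x.2.1 := by
    rw [Behrend.map_apply]
    rw [Finset.sum_eq_single (0 : Fin (q + 1))]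
    · simp
    · intro b _ hb; simp [hb]
    · simp
  rw [map_add, map_add, h0, expo, add_assoc]

lemma expo_injOn {q : ℕ} {A B : Finset (Fin (q + 1))} {D T n n' : ℕ} (h0A : 0 ∉ A) (h0B : 0 ∉ B)
    (hAB : Disjoint A B) (hD : 2 * n + 2 * n' + 2 * T + 1 < D) :
    Set.InjOn (expo D) (SetLike.coe (idx A B T n n' 1)) := by
  intro x hx x' hx' he
  rw [Finset.mem_coe, idx, Finset.mem_sigma, Finset.mem_product, Finset.mem_product,
    Finset.mem_range, Finset.mem_range] at hx hx'
  obtain ⟨s, y, u, v⟩ := x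
  obtain ⟨s', y', u', v'⟩ := x'
  simp only at hx hx'
  obtain ⟨hs, hy, hu, hv⟩ := hx
  obtain ⟨hs', hy', hu', hv'⟩ := hx'
  have ud := digit_le hu
  have vd := digit_le hv
  have ud' := digit_le hu'
  have vd' := digit_le hv'
  rw [mem_piAntidiag] at hu hv hu' hv'
  have zu : ∀ i, i ∉ A → u i = 0 := fun i hi => by by_contra h; exact hi (hu.2 i h)
  have zv : ∀ i, i ∉ B → v i = 0 := fun i hi => by by_contra h; exact hi (hv.2 i h)
  have zu' : ∀ i, i ∉ A → u' i = 0 := fun i hi => by by_contra h; exact hi (hu'.2 i h)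
  have zv' : ∀ i, i ∉ B → v' i = 0 := fun i hi => by by_contra h; exact hi (hv'.2 i h)
  rw [expo_eq_map, expo_eq_map] at he
  simp only at he
  have dig : ∀ i, ((Pi.single 0 y + u + v : Fin (q + 1) → ℕ)) i < D := by
    intro i
    simp only [Pi.add_apply]
    by_cases hi0 : i = 0
    · subst hi0
      rw [zu 0 h0A, zv 0 h0B]; simp only [Pi.single_eq_same]; omega
    · have h1 : (Pi.single 0 y : Fin (q + 1) → ℕ) i = 0 := by simp [hi0]
      have h2 := ud i
      have h3 := vd i
      rw [h1]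
      by_cases hiA : i ∈ A
      · rw [zv i (Finset.disjoint_left.1 hAB hiA)]; omega
      · rw [zu i hiA]; omega
  have dig' : ∀ i, ((Pi.single 0 y' + u' + v' : Fin (q + 1) → ℕ)) i < D := by
    intro i
    simp only [Pi.add_apply]
    by_cases hi0 : i = 0
    · subst hi0
      rw [zu' 0 h0A, zv' 0 h0B]; simp only [Pi.single_eq_same]; omega
    · have h1 : (Pi.single 0 y' : Fin (q + 1) → ℕ) i = 0 := by simp [hi0]
      have h2 := ud' i
      have h3 := vd' i
      rw [h1]
      by_cases hiA : i ∈ A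
      · rw [zv' i (Finset.disjoint_left.1 hAB hiA)]; omega
      · rw [zu' i hiA]; omega
  have heq := Behrend.map_injOn (d := D) dig dig' he
  have hpt : ∀ i, (Pi.single 0 y : Fin (q + 1) → ℕ) i + u i + v i
      = (Pi.single 0 y' : Fin (q + 1) → ℕ) i + u' i + v' i := fun i => congrFun heq i
  have hyy : y = y' := by
    have := hpt 0
    rw [zu 0 h0A, zv 0 h0B, zu' 0 h0A, zv' 0 h0B] at this
    simpa using this
  have huu : u = u' := by
    funext i
    by_cases hiA : i ∈ A
    · have hi0 : i ≠ 0 := fun h => h0A (h ▸ hiA)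
      have := hpt i
      rw [zv i (Finset.disjoint_left.1 hAB hiA), zv' i (Finset.disjoint_left.1 hAB hiA)] at this
      simpa [hi0] using this
    · rw [zu i hiA, zu' i hiA]
  have hvv : v = v' := by
    funext i
    by_cases hiB : i ∈ B
    · have hi0 : i ≠ 0 := fun h => h0B (h ▸ hiB)
      have := hpt i
      rw [zu i (Finset.disjoint_right.1 hAB hiB), zu' i (Finset.disjoint_right.1 hAB hiB)] at this
      simpa [hi0] using this
    · rw [zv i hiB, zv' i hiB]
  have hss : s = s' := by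
    have h1 := hu.1
    have h2 := hu'.1
    rw [← huu, h1] at h2
    omega
  subst hyy huu hvv hss
  rfl

lemma card_piAntidiag {ι : Type*} [DecidableEq ι] (s : Finset ι) (j : ℕ) :
    (piAntidiag s j).card = (s.card + j - 1).choose j := by
  rw [← card_finsuppAntidiag_nat_eq_choose, finsuppAntidiag, Finset.card_map, Finset.card_attach]

lemma card_idx (A B : Finset (Fin r)) (T n n' e : ℕ) :
    (idx A B T n n' e).card = ∑ s ∈ range (2 * T + 1), (s + e) *
      ((A.card + (2 * n + s) - 1).choose (2 * n + s) *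
        (B.card + (2 * n' - s) - 1).choose (2 * n' - s)) := by
  unfold idx
  rw [Finset.card_sigma]
  refine Finset.sum_congr rfl fun s _ => ?_
  rw [Finset.card_product, Finset.card_product, card_piAntidiag, card_piAntidiag, Finset.card_range]

/-- Combinatorial conclusion: coefficients of the square are at most `l` and its support together
with the shift by one has at most `card (idx ... 2)` elements. -/
theorem bigP_main {q : ℕ} {A B : Finset (Fin (q + 1))} {D T n n' : ℕ} (h0A : 0 ∉ A) (h0B : 0 ∉ B)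
    (hAB : Disjoint A B) (hD : 2 * n + 2 * n' + 2 * T + 1 < D) (a : ℕ → ℝ) (ha : ∀ k, 0 ≤ a k)
    (hT : T ≤ n') {l : ℝ} (hl : 0 ≤ l)
    (hal : ∀ k k' : ℕ, k ≤ T → k' ≤ T →
      a k * a k' * (((2 * n + (k + k'))! : ℝ) * ((2 * n' - (k + k'))! : ℝ)) ≤ l) :
    (∀ m, (bigP A B D T n n' a * bigP A B D T n n' a).coeff m ≤ l) ∧
    ∃ S : Finset ℕ, S.card ≤ (idx A B T n n' 2).card ∧
      ∀ m, (bigP A B D T n n' a * bigP A B D T n n' a).coeff m ≠ 0 → m ∈ S ∧ m + 1 ∈ S := by
  have hc := bigP_sq_cle A B D T n n' a ha hT hl hal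
  have hinj := expo_injOn h0A h0B hAB hD
  have hcard : ∀ m, ((idx A B T n n' 1).filter (fun x => expo D x = m)).card ≤ 1 := by
    intro m
    rw [Finset.card_le_one]
    intro x hx x' hx'
    rw [Finset.mem_filter] at hx hx'
    exact hinj hx.1 hx'.1 (hx.2.trans hx'.2.symm)
  refine ⟨fun m => ?_, (idx A B T n n' 2).image (expo D), Finset.card_image_le, fun m hm => ?_⟩
  · refine (hc m).trans ?_
    rw [coeff_C_mul, domP_coeff]
    have : (((idx A B T n n' 1).filter (fun x => expo D x = m)).card : ℝ) ≤ 1 := by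
      exact_mod_cast hcard m
    nlinarith
  · have h1 := hc m
    have hnn : 0 ≤ (bigP A B D T n n' a * bigP A B D T n n' a).coeff m := by
      have := cnn_mul (cnn_bigP A B D T n n' a ha) (cnn_bigP A B D T n n' a ha) m
      simpa using this
    have hpos : 0 < (bigP A B D T n n' a * bigP A B D T n n' a).coeff m :=
      lt_of_le_of_ne hnn (Ne.symm hm)
    have h2 : 0 < (((idx A B T n n' 1).filter (fun x => expo D x = m)).card : ℝ) := by
      rw [coeff_C_mul, domP_coeff] at h1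
      by_contra hcon
      push Not at hcon
      nlinarith
    have h3 : 0 < ((idx A B T n n' 1).filter (fun x => expo D x = m)).card := by exact_mod_cast h2
    obtain ⟨x, hx⟩ := Finset.card_pos.1 h3
    rw [Finset.mem_filter] at hx
    obtain ⟨hxi, hxe⟩ := hx
    unfold idx at hxi
    rw [Finset.mem_sigma, Finset.mem_product, Finset.mem_range, Finset.mem_range] at hxi
    constructor
    · refine Finset.mem_image.2 ⟨x, ?_, hxe⟩
      unfold idx
      rw [Finset.mem_sigma, Finset.mem_product, Finset.mem_range, Finset.mem_range]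
      exact ⟨hxi.1, by omega, hxi.2.2⟩
    · refine Finset.mem_image.2 ⟨⟨x.1, (x.2.1 + 1, x.2.2)⟩, ?_, ?_⟩
      · unfold idx
        rw [Finset.mem_sigma, Finset.mem_product, Finset.mem_range, Finset.mem_range]
        exact ⟨hxi.1, by simp only; omega, hxi.2.2⟩
      · rw [← hxe]; simp only [expo]; ring

end Pool.Agent.MP7c1d9a
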