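import Mathlib

/-!
Choice of the parameters.
-/

set_option autoImplicit false

open Finset Nat Filter Topology

namespace Pool.Agent.MP7c1d9a

/-- `ra n n' k = ∏_{i<k} (n'-i)/(n+1+i)`. -/
noncomputable def ra (n n' k : ℕ) : ℝ := ∏ i ∈ range k, (((n' - i : ℕ) : ℝ) / ((n : ℝ) + 1 + i))

lemma ra_nonneg (n n' k : ℕ) : 0 ≤ ra n n' k :=
  Finset.prod_nonneg fun i _ => by positivity

lemma ra_fact (n n' k : ℕ) (hk : k ≤ n') :
    ra n n' k * (((n + k)! : ℝ) * ((n' - k)! : ℝ)) = (n ! : ℝ) * (n' ! : ℝ) := by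
  induction k with
  | zero => simp [ra]
  | succ k ih =>
    have ih' := ih (by omega)
    have h1 : ra n n' (k + 1) = ra n n' k * (((n' - k : ℕ) : ℝ) / ((n : ℝ) + 1 + k)) := by
      unfold ra; rw [Finset.prod_range_succ]
    have h2 : ((n + (k + 1))! : ℝ) = ((n : ℝ) + 1 + k) * ((n + k)! : ℝ) := by
      rw [← add_assoc, Nat.factorial_succ]; push_cast; ring
    have h3 : ((n' - k)! : ℝ) = ((n' - k : ℕ) : ℝ) * ((n' - (k + 1))! : ℝ) := by
      have : n' - k = (n' - (k + 1)) + 1 := by omega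
      rw [this, Nat.factorial_succ]; push_cast; ring
    rw [← ih', h1, h2, h3]
    have : (n : ℝ) + 1 + k ≠ 0 := by positivity
    field_simp

lemma ra_pos {n n' k : ℕ} (hk : k ≤ n') : 0 < ra n n' k := by
  refine Finset.prod_pos fun i hi => ?_
  rw [Finset.mem_range] at hi
  have : (0 : ℝ) < ((n' - i : ℕ) : ℝ) := by
    exact_mod_cast (show 0 < n' - i by omega)
  positivity

lemma tendsto_factor (p i : ℕ) (e : ℕ) (he : 0 < e) :
    Tendsto (fun R : ℕ => (((e * (p * R) - i : ℕ) : ℝ) / (((e * ((p + 1) * R) : ℕ) : ℝ) + 1 + i)))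
      atTop (𝓝 ((p : ℝ) / (p + 1))) := by
  have hR : Tendsto (fun R : ℕ => (1 : ℝ) / (R : ℝ)) atTop (𝓝 0) := tendsto_one_div_atTop_nhds_zero_nat
  have h1 : Tendsto (fun R : ℕ => (((e * (p * R) - i : ℕ) : ℝ) / (R : ℝ))) atTop (𝓝 ((e : ℝ) * p)) := by
    refine tendsto_of_tendsto_of_tendsto_of_le_of_le'
      (g := fun R : ℕ => (e : ℝ) * p - i * (1 / (R : ℝ))) (h := fun _ : ℕ => (e : ℝ) * p) ?_
      tendsto_const_nhds ?_ ?_
    · have := (tendsto_const_nhds (x := (e : ℝ) * p)).sub (hR.const_mul (i : ℝ))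
      simpa using this
    · filter_upwards [eventually_gt_atTop 0] with R hR0
      have hR' : (0 : ℝ) < R := by exact_mod_cast hR0
      rw [le_div_iff₀ hR']
      have h : (e : ℝ) * p * R - i ≤ ((e * (p * R) - i : ℕ) : ℝ) := by
        have h2 : e * (p * R) ≤ (e * (p * R) - i) + i := by omega
        have h3 : ((e * (p * R) : ℕ) : ℝ) ≤ (((e * (p * R) - i) + i : ℕ) : ℝ) := by exact_mod_cast h2
        push_cast at h3
        push_cast
        linarith
      calc ((e : ℝ) * p - i * (1 / (R : ℝ))) * R = (e : ℝ) * p * R - i := by field_simp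
        _ ≤ _ := h
    · filter_upwards [eventually_gt_atTop 0] with R hR0
      have hR' : (0 : ℝ) < R := by exact_mod_cast hR0
      rw [div_le_iff₀ hR']
      have h2 : e * (p * R) - i ≤ e * (p * R) := Nat.sub_le _ _
      have h3 : ((e * (p * R) - i : ℕ) : ℝ) ≤ ((e * (p * R) : ℕ) : ℝ) := by exact_mod_cast h2
      push_cast at h3
      push_cast
      linarith
  have h2 : Tendsto (fun R : ℕ => ((((e * ((p + 1) * R) : ℕ) : ℝ) + 1 + i) / (R : ℝ))) atTop
      (𝓝 ((e : ℝ) * (p + 1))) := by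
    have : Tendsto (fun R : ℕ => (e : ℝ) * (p + 1) + (1 + i) * (1 / (R : ℝ))) atTop
        (𝓝 ((e : ℝ) * (p + 1))) := by
      have := (tendsto_const_nhds (x := (e : ℝ) * (p + 1))).add (hR.const_mul ((1 : ℝ) + i))
      simpa using this
    refine this.congr' ?_
    filter_upwards [eventually_gt_atTop 0] with R hR0
    have hR' : (0 : ℝ) < R := by exact_mod_cast hR0
    push_cast
    field_simp
    ring
  have he' : (e : ℝ) ≠ 0 := by positivity
  have h3 := h1.div h2 (by positivity)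
  have h4 : (e : ℝ) * p / ((e : ℝ) * (p + 1)) = (p : ℝ) / (p + 1) := by
    field_simp
  rw [h4] at h3
  refine h3.congr' ?_
  filter_upwards [eventually_gt_atTop 0] with R hR0
  have hR' : (R : ℝ) ≠ 0 := by positivity
  simp only [Pi.div_apply]
  field_simp

lemma tendsto_ra (p k e : ℕ) (he : 0 < e) :
    Tendsto (fun R : ℕ => ra (e * ((p + 1) * R)) (e * (p * R)) k) atTop
      (𝓝 (((p : ℝ) / (p + 1)) ^ k)) := by
  unfold ra
  have := tendsto_finsetProd (range k) (fun i _ => tendsto_factor p i e he)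
  rw [Finset.prod_const, Finset.card_range] at this
  exact this

/-- Final choice of the parameters. -/
theorem exists_params {c : ℝ} (hc0 : 0 < c) (hc1 : c < 1) :
    ∃ (N n n' T : ℕ) (a : ℕ → ℝ) (l : ℝ), (∀ k, 0 ≤ a k) ∧ T ≤ n' ∧ 0 ≤ l ∧
      (∀ k k' : ℕ, k ≤ T → k' ≤ T →
        a k * a k' * (((2 * n + (k + k'))! : ℝ) * ((2 * n' - (k + k'))! : ℝ)) ≤ l) ∧
      (1 - c) * l * ((∑ s ∈ range (2 * T + 1), (s + 2) *
        ((N + (2 * n + s) - 1).choose (2 * n + s) *
          (N + (2 * n' - s) - 1).choose (2 * n' - s)) : ℕ) : ℝ)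
        < ((∑ k ∈ range (T + 1), a k) * (N : ℝ) ^ (n + n')) ^ 2 := by
  -- choose p
  obtain ⟨p, hp⟩ := exists_nat_gt (1 / c)
  have hp0 : (0 : ℝ) < p := lt_trans (by positivity) hp
  have hcp : 1 < c * p := by
    rw [div_lt_iff₀ hc0] at hp; linarith
  set q : ℝ := (p : ℝ) / (p + 1) with hq
  have hq0 : 0 < q := by positivity
  have hq1 : q < 1 := by rw [hq, div_lt_one (by positivity)]; linarith
  have h1q : 0 < 1 - q := by linarith
  -- the limiting inequality
  have hkey : (1 - c) * ((2 - q) / (1 - q) ^ 2) < (1 / (1 - q)) ^ 2 := by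
    rw [div_pow, one_pow, ← mul_div_assoc]
    rw [div_lt_div_iff_of_pos_right (by positivity)]
    have h2 : 2 - q = (p + 2) / (p + 1) := by rw [hq]; field_simp; ring
    rw [h2, ← mul_div_assoc, div_lt_one (by positivity)]
    nlinarith
  have hsumle : ∀ m, ∑ s ∈ range m, ((s : ℝ) + 2) * q ^ s ≤ (2 - q) / (1 - q) ^ 2 := by
    intro m
    have hn : ‖q‖ < 1 := by rw [Real.norm_eq_abs, abs_of_pos hq0]; exact hq1
    have hs1 := hasSum_coe_mul_geometric_of_norm_lt_one hn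
    have hs2 := (hasSum_geometric_of_norm_lt_one hn).mul_left 2
    have hs := hs1.add hs2
    have e1 : q / (1 - q) ^ 2 + 2 * (1 - q)⁻¹ = (2 - q) / (1 - q) ^ 2 := by
      field_simp; ring
    rw [e1] at hs
    have : ∑ s ∈ range m, ((s : ℝ) + 2) * q ^ s = ∑ s ∈ range m, ((s : ℝ) * q ^ s + 2 * q ^ s) :=
      Finset.sum_congr rfl fun s _ => by ring
    rw [this]
    exact sum_le_hasSum _ (fun s _ => by positivity) hs
  -- choose T
  have hT : Tendsto (fun T : ℕ => (∑ k ∈ range (T + 1), q ^ k) ^ 2) atTop (𝓝 ((1 / (1 - q)) ^ 2)) := by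
    have h1 := (hasSum_geometric_of_lt_one hq0.le hq1).tendsto_sum_nat
    have h2 := (h1.comp (tendsto_add_atTop_nat 1)).pow 2
    rw [one_div]
    exact h2
  obtain ⟨T, hTlt⟩ := (hT.eventually (lt_mem_nhds hkey)).exists
  have hTlt' : (1 - c) * (∑ s ∈ range (2 * T + 1), ((s : ℝ) + 2) * q ^ s)
      < (∑ k ∈ range (T + 1), q ^ k) ^ 2 :=
    lt_of_le_of_lt (mul_le_mul_of_nonneg_left (hsumle _) (by linarith)) hTlt
  -- choose η
  obtain ⟨η, hη0, hη⟩ : ∃ η : ℝ, 0 < η ∧
      (1 - c) * (1 + η) * (∑ s ∈ range (2 * T + 1), ((s : ℝ) + 2) * q ^ s)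
        < (∑ k ∈ range (T + 1), q ^ k) ^ 2 := by
    have hcont : Tendsto (fun η : ℝ => (1 - c) * (1 + η) *
        (∑ s ∈ range (2 * T + 1), ((s : ℝ) + 2) * q ^ s)) (𝓝[>] 0)
        (𝓝 ((1 - c) * (1 + 0) * (∑ s ∈ range (2 * T + 1), ((s : ℝ) + 2) * q ^ s))) := by
      refine Tendsto.mono_left ?_ nhdsWithin_le_nhds
      exact Continuous.tendsto (by fun_prop) 0
    rw [add_zero, mul_one] at hcont
    have h1 := hcont.eventually (gt_mem_nhds hTlt')
    have h2 : ∀ᶠ η : ℝ in 𝓝[>] 0, 0 < η := eventually_mem_nhdsWithin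
    obtain ⟨η, h3, h4⟩ := (h1.and h2).exists
    exact ⟨η, h4, h3⟩
  -- choose R
  have tra : ∀ k, Tendsto (fun R : ℕ => ra ((p + 1) * R) (p * R) k) atTop (𝓝 (q ^ k)) := by
    intro k
    have := tendsto_ra p k 1 one_pos
    simpa using this
  have tsa : ∀ k, Tendsto (fun R : ℕ => ra (2 * ((p + 1) * R)) (2 * (p * R)) k) atTop (𝓝 (q ^ k)) :=
    fun k => tendsto_ra p k 2 two_pos
  have ev1 : ∀ᶠ R : ℕ in atTop,
      (1 - c) * (1 + η) * (∑ s ∈ range (2 * T + 1), ((s : ℝ) + 2) *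
        ra (2 * ((p + 1) * R)) (2 * (p * R)) s)
        < (∑ k ∈ range (T + 1), ra ((p + 1) * R) (p * R) k) ^ 2 := by
    have t1 : Tendsto (fun R : ℕ => (1 - c) * (1 + η) * (∑ s ∈ range (2 * T + 1), ((s : ℝ) + 2) *
        ra (2 * ((p + 1) * R)) (2 * (p * R)) s)) atTop
        (𝓝 ((1 - c) * (1 + η) * (∑ s ∈ range (2 * T + 1), ((s : ℝ) + 2) * q ^ s))) := by
      refine Tendsto.const_mul _ ?_
      exact tendsto_finsetSum _ fun s _ => (tsa s).const_mul _
    have t2 : Tendsto (fun R : ℕ => (∑ k ∈ range (T + 1), ra ((p + 1) * R) (p * R) k) ^ 2) atTop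
        (𝓝 ((∑ k ∈ range (T + 1), q ^ k) ^ 2)) :=
      (tendsto_finsetSum _ fun k _ => tra k).pow 2
    exact t1.eventually_lt t2 hη
  have ev2 : ∀ᶠ R : ℕ in atTop, ∀ x ∈ range (T + 1) ×ˢ range (T + 1),
      ra ((p + 1) * R) (p * R) x.1 * ra ((p + 1) * R) (p * R) x.2
        < (1 + η) * ra (2 * ((p + 1) * R)) (2 * (p * R)) (x.1 + x.2) := by
    rw [Filter.eventually_all_finset]
    intro x _
    have t1 := (tra x.1).mul (tra x.2)
    have t2 := (tsa (x.1 + x.2)).const_mul (1 + η)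
    refine t1.eventually_lt t2 ?_
    rw [← pow_add]
    have : 0 < q ^ (x.1 + x.2) := by positivity
    nlinarith
  have hp1 : 1 ≤ p := by exact_mod_cast hp0
  obtain ⟨R, hR1, hR2, hR3⟩ := (ev1.and (ev2.and (eventually_ge_atTop T))).exists
  set n := (p + 1) * R with hn
  set n' := p * R with hn'
  have hTn' : T ≤ n' := by
    calc T ≤ R := hR3
      _ = 1 * R := (one_mul R).symm
      _ ≤ p * R := Nat.mul_le_mul_right R hp1
  -- choose N
  have tN : Tendsto (fun N : ℕ => (1 - c) * (1 + η) * ((((N : ℝ) + (2 * n + 2 * n')) / N) ^ (2 * n + 2 * n')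
      * (∑ s ∈ range (2 * T + 1), ((s : ℝ) + 2) * ra (2 * n) (2 * n') s))) atTop
      (𝓝 ((1 - c) * (1 + η) * ((1 : ℝ) ^ (2 * n + 2 * n') *
        (∑ s ∈ range (2 * T + 1), ((s : ℝ) + 2) * ra (2 * n) (2 * n') s)))) := by
    refine Tendsto.const_mul _ (Tendsto.mul_const _ (Tendsto.pow ?_ _))
    have hR : Tendsto (fun R : ℕ => (1 : ℝ) / (R : ℝ)) atTop (𝓝 0) := tendsto_one_div_atTop_nhds_zero_nat
    have : Tendsto (fun N : ℕ => 1 + (2 * (n : ℝ) + 2 * n') * (1 / (N : ℝ))) atTop (𝓝 1) := by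
      have := (tendsto_const_nhds (x := (1 : ℝ))).add (hR.const_mul (2 * (n : ℝ) + 2 * n'))
      simpa using this
    refine this.congr' ?_
    filter_upwards [eventually_gt_atTop 0] with N hN
    have hN' : (N : ℝ) ≠ 0 := by positivity
    field_simp
  rw [one_pow, one_mul] at tN
  obtain ⟨N, hN1, hN0⟩ := ((tN.eventually (gt_mem_nhds hR1)).and (eventually_gt_atTop 0)).exists
  have hNpos : (0 : ℝ) < N := by exact_mod_cast hN0
  set l : ℝ := (1 + η) * (((2 * n)! : ℝ) * ((2 * n')! : ℝ)) with hl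
  refine ⟨N, n, n', T, ra n n', l, fun k => ra_nonneg _ _ _, hTn', by positivity, ?_, ?_⟩
  · intro k k' hk hk'
    have h1 := hR2 (k, k') (by simp; omega)
    simp only at h1
    have h2 := ra_fact (2 * n) (2 * n') (k + k') (by omega)
    calc ra n n' k * ra n n' k' * (((2 * n + (k + k'))! : ℝ) * ((2 * n' - (k + k'))! : ℝ))
        ≤ ((1 + η) * ra (2 * n) (2 * n') (k + k')) *
            (((2 * n + (k + k'))! : ℝ) * ((2 * n' - (k + k'))! : ℝ)) := by
          exact mul_le_mul_of_nonneg_right h1.le (by positivity)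
      _ = l := by rw [mul_assoc, h2]
  · have hchoose : ∀ s ∈ range (2 * T + 1),
        ((N + (2 * n + s) - 1).choose (2 * n + s) : ℝ) * ((N + (2 * n' - s) - 1).choose (2 * n' - s) : ℝ)
          ≤ ((N : ℝ) + (2 * n + 2 * n')) ^ (2 * n + 2 * n') *
            (1 / (((2 * n + s)! : ℝ) * ((2 * n' - s)! : ℝ))) := by
      intro s hs
      rw [Finset.mem_range] at hs
      have b1 : ((N + (2 * n + s) - 1).choose (2 * n + s) : ℝ) ≤
          ((N : ℝ) + (2 * n + 2 * n')) ^ (2 * n + s) / ((2 * n + s)! : ℝ) := by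
        refine (Nat.choose_le_pow_div _ _).trans ?_
        gcongr
        have : N + (2 * n + s) - 1 ≤ N + (2 * n + 2 * n') := by omega
        exact_mod_cast this
      have b2 : ((N + (2 * n' - s) - 1).choose (2 * n' - s) : ℝ) ≤
          ((N : ℝ) + (2 * n + 2 * n')) ^ (2 * n' - s) / ((2 * n' - s)! : ℝ) := by
        refine (Nat.choose_le_pow_div _ _).trans ?_
        gcongr
        have : N + (2 * n' - s) - 1 ≤ N + (2 * n + 2 * n') := by omega
        exact_mod_cast this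
      calc _ ≤ (((N : ℝ) + (2 * n + 2 * n')) ^ (2 * n + s) / ((2 * n + s)! : ℝ)) *
            (((N : ℝ) + (2 * n + 2 * n')) ^ (2 * n' - s) / ((2 * n' - s)! : ℝ)) := by
            exact mul_le_mul b1 b2 (by positivity) (by positivity)
        _ = _ := by
          have e : 2 * n + 2 * n' = (2 * n + s) + (2 * n' - s) := by omega
          rw [show ((N : ℝ) + (2 * n + 2 * n')) ^ (2 * n + 2 * n')
            = ((N : ℝ) + (2 * n + 2 * n')) ^ (2 * n + s) * ((N : ℝ) + (2 * n + 2 * n')) ^ (2 * n' - s) by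
              rw [← pow_add, ← e]]
          field_simp
    have hsum : ((∑ s ∈ range (2 * T + 1), (s + 2) *
        ((N + (2 * n + s) - 1).choose (2 * n + s) *
          (N + (2 * n' - s) - 1).choose (2 * n' - s)) : ℕ) : ℝ) ≤
        ((N : ℝ) + (2 * n + 2 * n')) ^ (2 * n + 2 * n') *
          ∑ s ∈ range (2 * T + 1), ((s : ℝ) + 2) * (1 / (((2 * n + s)! : ℝ) * ((2 * n' - s)! : ℝ))) := by
      push_cast
      rw [Finset.mul_sum]
      refine Finset.sum_le_sum fun s hs => ?_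
      have := hchoose s hs
      calc ((s : ℝ) + 2) * (((N + (2 * n + s) - 1).choose (2 * n + s) : ℝ) *
            ((N + (2 * n' - s) - 1).choose (2 * n' - s) : ℝ))
          ≤ ((s : ℝ) + 2) * (((N : ℝ) + (2 * n + 2 * n')) ^ (2 * n + 2 * n') *
            (1 / (((2 * n + s)! : ℝ) * ((2 * n' - s)! : ℝ)))) := by
            exact mul_le_mul_of_nonneg_left this (by positivity)
        _ = _ := by ring
    have hl2 : l * (∑ s ∈ range (2 * T + 1), ((s : ℝ) + 2) *
        (1 / (((2 * n + s)! : ℝ) * ((2 * n' - s)! : ℝ))))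
        = (1 + η) * ∑ s ∈ range (2 * T + 1), ((s : ℝ) + 2) * ra (2 * n) (2 * n') s := by
      rw [hl, mul_assoc]
      congr 1
      rw [Finset.mul_sum]
      refine Finset.sum_congr rfl fun s hs => ?_
      rw [Finset.mem_range] at hs
      rw [← ra_fact (2 * n) (2 * n') s (by omega)]
      field_simp
    have h1c : 0 ≤ 1 - c := by linarith
    have hl0 : 0 ≤ l := by positivity
    calc (1 - c) * l * ((∑ s ∈ range (2 * T + 1), (s + 2) *
        ((N + (2 * n + s) - 1).choose (2 * n + s) *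
          (N + (2 * n' - s) - 1).choose (2 * n' - s)) : ℕ) : ℝ)
        ≤ (1 - c) * l * (((N : ℝ) + (2 * n + 2 * n')) ^ (2 * n + 2 * n') *
          ∑ s ∈ range (2 * T + 1), ((s : ℝ) + 2) * (1 / (((2 * n + s)! : ℝ) * ((2 * n' - s)! : ℝ)))) :=
          mul_le_mul_of_nonneg_left hsum (by positivity)
      _ = (1 - c) * ((N : ℝ) + (2 * n + 2 * n')) ^ (2 * n + 2 * n') * (l *
          ∑ s ∈ range (2 * T + 1), ((s : ℝ) + 2) * (1 / (((2 * n + s)! : ℝ) * ((2 * n' - s)! : ℝ)))) := by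
          ring
      _ = ((1 - c) * (1 + η) * ((((N : ℝ) + (2 * n + 2 * n')) / N) ^ (2 * n + 2 * n')
          * (∑ s ∈ range (2 * T + 1), ((s : ℝ) + 2) * ra (2 * n) (2 * n') s))) * (N : ℝ) ^ (2 * n + 2 * n') := by
          rw [hl2, div_pow]
          field_simp
      _ < (∑ k ∈ range (T + 1), ra n n' k) ^ 2 * (N : ℝ) ^ (2 * n + 2 * n') := by
          exact mul_lt_mul_of_pos_right hN1 (by positivity)
      _ = ((∑ k ∈ range (T + 1), ra n n' k) * (N : ℝ) ^ (n + n')) ^ 2 := by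
          rw [mul_pow, ← pow_mul]; ring_nf

end Pool.Agent.MP7c1d9a
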