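import Mathlib

/-!
Step functions attached to real polynomials, and their autoconvolutions.
-/

set_option autoImplicit false

open Finset Polynomial MeasureTheory

namespace Pool.Agent.MP7c1d9a

/-- The step function `∑ P_m 1_{[m, m+1)}`. -/
noncomputable def stp (P : ℝ[X]) (x : ℝ) : ℝ := if 0 ≤ x then P.coeff ⌊x⌋₊ else 0

lemma stp_nonneg {P : ℝ[X]} (hP : ∀ m, 0 ≤ P.coeff m) (x : ℝ) : 0 ≤ stp P x := by
  unfold stp; split_ifs
  · exact hP _
  · exact le_rfl

lemma stp_le {P : ℝ[X]} {l : ℝ} (hl : 0 ≤ l) (hP : ∀ m, P.coeff m ≤ l) (x : ℝ) : stp P x ≤ l := by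
  unfold stp; split_ifs
  · exact hP _
  · exact hl

lemma stp_add (P Q : ℝ[X]) (x : ℝ) : stp (P + Q) x = stp P x + stp Q x := by
  unfold stp; split_ifs <;> simp

lemma stp_monomial (m : ℕ) (a : ℝ) (x : ℝ) :
    stp (monomial m a) x = (Set.Ico (m : ℝ) (m + 1)).indicator (fun _ => a) x := by
  unfold stp
  by_cases hx : 0 ≤ x
  · rw [if_pos hx, coeff_monomial]
    by_cases hm : m = ⌊x⌋₊
    · rw [if_pos hm, Set.indicator_of_mem]
      rw [eq_comm, Nat.floor_eq_iff hx] at hm
      exact ⟨hm.1, hm.2⟩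
    · rw [if_neg hm, Set.indicator_of_notMem]
      intro h
      apply hm
      rw [eq_comm, Nat.floor_eq_iff hx]
      exact ⟨h.1, h.2⟩
  · rw [if_neg hx, Set.indicator_of_notMem]
    intro h
    exact hx ((Nat.cast_nonneg m).trans h.1)

lemma stp_measurable (P : ℝ[X]) : Measurable (stp P) := by
  unfold stp
  refine Measurable.ite measurableSet_Ici ?_ measurable_const
  exact (measurable_of_countable (fun n : ℕ => P.coeff n)).comp Nat.measurable_floor

lemma stp_monomial_memLp (m : ℕ) (a : ℝ) (p : ENNReal) : MemLp (stp (monomial m a)) p volume := by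
  have : stp (monomial m a) = (Set.Ico (m : ℝ) (m + 1)).indicator (fun _ => a) := by
    funext x; exact stp_monomial m a x
  rw [this]
  exact memLp_indicator_const p measurableSet_Ico a (Or.inr (by simp))

lemma stp_memLp (P : ℝ[X]) (p : ENNReal) : MemLp (stp P) p volume := by
  induction P using Polynomial.induction_on' with
  | add P Q hP hQ =>
    have : stp (P + Q) = stp P + stp Q := by funext x; exact stp_add P Q x
    rw [this]; exact hP.add hQ
  | monomial m a => exact stp_monomial_memLp m a p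

lemma stp_integrable (P : ℝ[X]) : Integrable (stp P) volume :=
  memLp_one_iff_integrable.1 (stp_memLp P 1)

lemma stp_mul_integrable (P Q : ℝ[X]) (x : ℝ) :
    Integrable (fun t => stp P t * stp Q (x - t)) volume := by
  have h1 : MemLp (stp P) 2 volume := stp_memLp P 2
  have h2 : MemLp (fun t => stp Q (x - t)) 2 volume := by
    have := (stp_memLp Q 2)
    exact this.comp_measurePreserving (Measure.measurePreserving_sub_left volume x)
  exact h1.integrable_mul h2

lemma stp_integral (P : ℝ[X]) : ∫ x, stp P x = P.eval 1 := by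
  induction P using Polynomial.induction_on' with
  | add P Q hP hQ =>
    simp only [stp_add]
    rw [integral_add (stp_integrable P) (stp_integrable Q), hP, hQ, eval_add]
  | monomial m a =>
    simp only [stp_monomial]
    rw [integral_indicator measurableSet_Ico]
    simp

/-- The key identity: `f_P * f_Q = 1_{[0,1)} * f_{PQ}`. -/
lemma stp_conv (P Q : ℝ[X]) (x : ℝ) :
    ∫ t, stp P t * stp Q (x - t) = ∫ t, stp (monomial 0 1) t * stp (P * Q) (x - t) := by
  induction P using Polynomial.induction_on' with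
  | add P₁ P₂ h₁ h₂ =>
    have e1 : ∀ t, stp (P₁ + P₂) t * stp Q (x - t)
        = stp P₁ t * stp Q (x - t) + stp P₂ t * stp Q (x - t) := by
      intro t; rw [stp_add]; ring
    have e2 : ∀ t, stp (monomial 0 1) t * stp ((P₁ + P₂) * Q) (x - t)
        = stp (monomial 0 1) t * stp (P₁ * Q) (x - t)
          + stp (monomial 0 1) t * stp (P₂ * Q) (x - t) := by
      intro t; rw [add_mul, stp_add]; ring
    simp only [e1, e2]
    rw [integral_add (stp_mul_integrable _ _ _) (stp_mul_integrable _ _ _), h₁, h₂,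
      integral_add (stp_mul_integrable _ _ _) (stp_mul_integrable _ _ _)]
  | monomial m a =>
    induction Q using Polynomial.induction_on' with
    | add Q₁ Q₂ h₁ h₂ =>
      have e1 : ∀ t, stp (monomial m a) t * stp (Q₁ + Q₂) (x - t)
          = stp (monomial m a) t * stp Q₁ (x - t) + stp (monomial m a) t * stp Q₂ (x - t) := by
        intro t; rw [stp_add]; ring
      have e2 : ∀ t, stp (monomial 0 1) t * stp (monomial m a * (Q₁ + Q₂)) (x - t)
          = stp (monomial 0 1) t * stp (monomial m a * Q₁) (x - t)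
            + stp (monomial 0 1) t * stp (monomial m a * Q₂) (x - t) := by
        intro t; rw [mul_add, stp_add]; ring
      simp only [e1, e2]
      rw [integral_add (stp_mul_integrable _ _ _) (stp_mul_integrable _ _ _), h₁, h₂,
        integral_add (stp_mul_integrable _ _ _) (stp_mul_integrable _ _ _)]
    | monomial k b =>
      rw [monomial_mul_monomial]
      rw [← integral_add_right_eq_self (fun t => stp (monomial m a) t * stp (monomial k b) (x - t))
        (m : ℝ)]
      refine integral_congr_ae (Filter.Eventually.of_forall fun t => ?_)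
      simp only [stp_monomial]
      have i1 : (t + (m : ℝ) ∈ Set.Ico (m : ℝ) (m + 1)) ↔ t ∈ Set.Ico (((0 : ℕ) : ℝ)) (((0 : ℕ) : ℝ) + 1) := by
        simp only [Set.mem_Ico, Nat.cast_zero]
        constructor
        · rintro ⟨h1, h2⟩; constructor <;> linarith
        · rintro ⟨h1, h2⟩; constructor <;> linarith
      have i2 : (x - (t + (m : ℝ)) ∈ Set.Ico (k : ℝ) (k + 1)) ↔
          x - t ∈ Set.Ico (((m + k : ℕ) : ℝ)) (((m + k : ℕ) : ℝ) + 1) := by
        simp only [Set.mem_Ico, Nat.cast_add]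
        constructor
        · rintro ⟨h1, h2⟩; constructor <;> linarith
        · rintro ⟨h1, h2⟩; constructor <;> linarith
      by_cases c1 : t ∈ Set.Ico (((0 : ℕ) : ℝ)) (((0 : ℕ) : ℝ) + 1) <;>
      by_cases c2 : x - t ∈ Set.Ico (((m + k : ℕ) : ℝ)) (((m + k : ℕ) : ℝ) + 1)
      · rw [Set.indicator_of_mem (i1.2 c1), Set.indicator_of_mem (i2.2 c2),
          Set.indicator_of_mem c1, Set.indicator_of_mem c2]; ring
      · rw [Set.indicator_of_notMem (fun h => c2 (i2.1 h)), Set.indicator_of_notMem c2]; ring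
      · rw [Set.indicator_of_notMem (fun h => c1 (i1.1 h)), Set.indicator_of_notMem c1]; ring
      · rw [Set.indicator_of_notMem (fun h => c1 (i1.1 h)), Set.indicator_of_notMem c1]; ring

/-- Autoconvolution of the step function. -/
noncomputable def autoc (P : ℝ[X]) (x : ℝ) : ℝ := ∫ t, stp P t * stp P (x - t)

lemma autoc_nonneg {P : ℝ[X]} (hP : ∀ m, 0 ≤ P.coeff m) (x : ℝ) : 0 ≤ autoc P x :=
  integral_nonneg fun _ => mul_nonneg (stp_nonneg hP _) (stp_nonneg hP _)

lemma one_nonneg_coeff : ∀ m, 0 ≤ (monomial 0 (1 : ℝ)).coeff m := by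
  intro m; rw [coeff_monomial]; split_ifs <;> norm_num

lemma autoc_le {P : ℝ[X]} {l : ℝ} (hl : 0 ≤ l)
    (h : ∀ m, (P * P).coeff m ≤ l) (x : ℝ) : autoc P x ≤ l := by
  unfold autoc
  rw [stp_conv]
  calc ∫ t, stp (monomial 0 1) t * stp (P * P) (x - t)
      ≤ ∫ t, stp (monomial 0 1) t * l := by
        refine integral_mono (stp_mul_integrable _ _ _) ((stp_integrable _).mul_const l) ?_
        intro t
        exact mul_le_mul_of_nonneg_left (stp_le hl h _) (stp_nonneg one_nonneg_coeff _)
    _ = l := by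
        rw [integral_mul_const, stp_integral]; simp

lemma autoc_eq_zero {P : ℝ[X]} {S : Finset ℕ}
    (hS : ∀ m, (P * P).coeff m ≠ 0 → m ∈ S ∧ m + 1 ∈ S) {x : ℝ}
    (hx : x ∉ ⋃ m ∈ S, Set.Ico (m : ℝ) (m + 1)) : autoc P x = 0 := by
  unfold autoc
  rw [stp_conv]
  refine integral_eq_zero_of_ae (Filter.Eventually.of_forall fun t => ?_)
  simp only [Pi.zero_apply, mul_eq_zero]
  by_contra hcon
  push Not at hcon
  obtain ⟨h1, h2⟩ := hcon
  apply hx
  have ht : t ∈ Set.Ico (((0 : ℕ) : ℝ)) (((0 : ℕ) : ℝ) + 1) := by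
    by_contra hc
    apply h1
    rw [stp_monomial, Set.indicator_of_notMem hc]
  simp only [Nat.cast_zero, zero_add, Set.mem_Ico] at ht
  unfold stp at h2
  split_ifs at h2 with h0
  · obtain ⟨hm, hm1⟩ := hS _ h2
    set m := ⌊x - t⌋₊ with hmdef
    have hf := (Nat.floor_eq_iff h0).1 hmdef.symm
    simp only [Set.mem_iUnion, Set.mem_Ico, exists_prop]
    by_cases hlt : x < m + 1
    · exact ⟨m, hm, by linarith [hf.1], hlt⟩
    · refine ⟨m + 1, hm1, ?_, ?_⟩
      · push_cast; linarith
      · push_cast; linarith [hf.2, ht.2]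
  · exact absurd rfl h2


lemma autoc_eq_convolution (P : ℝ[X]) :
    autoc P = convolution (stp P) (stp P) (ContinuousLinearMap.mul ℝ ℝ) volume := by
  funext x
  simp [autoc, convolution_def, ContinuousLinearMap.mul_apply']

lemma autoc_integrable (P : ℝ[X]) : Integrable (autoc P) volume := by
  rw [autoc_eq_convolution]
  exact (stp_integrable P).integrable_convolution _ (stp_integrable P)

lemma autoc_integral (P : ℝ[X]) : ∫ x, autoc P x = (P.eval 1) ^ 2 := by
  rw [autoc_eq_convolution, integral_convolution _ (stp_integrable P) (stp_integrable P)]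
  simp [stp_integral, sq]

lemma measure_cells_le (S : Finset ℕ) :
    volume (⋃ m ∈ S, Set.Ico (m : ℝ) (m + 1)) ≤ (S.card : ENNReal) := by
  calc volume (⋃ m ∈ S, Set.Ico (m : ℝ) (m + 1))
      ≤ ∑ m ∈ S, volume (Set.Ico (m : ℝ) (m + 1)) := measure_biUnion_finset_le _ _
    _ = (S.card : ENNReal) := by simp

/-- Main analytic lemma: if `P` has nonnegative coefficients, `P^2` has coefficients at most `l`,
`supp P^2` and its shift by one lie in `S`, and `(1 - c) * l * |S| < P(1)^2`, then the step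
function of `P` violates the improved inequality with constant `c`. -/
theorem stp_violates {P : ℝ[X]} (hP : ∀ m, 0 ≤ P.coeff m) {l : ℝ} (hl : 0 ≤ l)
    (hle : ∀ m, (P * P).coeff m ≤ l) {S : Finset ℕ}
    (hS : ∀ m, (P * P).coeff m ≠ 0 → m ∈ S ∧ m + 1 ∈ S) {c : ℝ} (hc : c < 1)
    (hbig : (1 - c) * l * S.card < (P.eval 1) ^ 2) :
    ¬ (eLpNorm (fun x : ℝ => ∫ t : ℝ, stp P t * stp P (x - t)) 2 volume ^ 2 ≤
          ENNReal.ofReal (1 - c) *
            eLpNorm (fun x : ℝ => ∫ t : ℝ, stp P t * stp P (x - t)) 1 volume *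
            eLpNorm (fun x : ℝ => ∫ t : ℝ, stp P t * stp P (x - t)) ⊤ volume) := by
  intro hcon
  change eLpNorm (autoc P) 2 volume ^ 2 ≤ ENNReal.ofReal (1 - c) *
    eLpNorm (autoc P) 1 volume * eLpNorm (autoc P) ⊤ volume at hcon
  set U : Set ℝ := ⋃ m ∈ S, Set.Ico (m : ℝ) (m + 1) with hU
  have hUm : volume U ≤ (S.card : ENNReal) := measure_cells_le S
  have hmeas : AEStronglyMeasurable (autoc P) volume := (autoc_integrable P).1
  -- L1 norm
  have h1 : eLpNorm (autoc P) 1 volume = ENNReal.ofReal ((P.eval 1) ^ 2) := by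
    rw [eLpNorm_one_eq_lintegral_enorm, ← autoc_integral,
      ofReal_integral_eq_lintegral_ofReal (autoc_integrable P)
        (Filter.Eventually.of_forall (autoc_nonneg hP))]
    refine lintegral_congr fun x => ?_
    rw [Real.enorm_eq_ofReal (autoc_nonneg hP x)]
  -- sup norm
  have htop : eLpNorm (autoc P) ⊤ volume ≤ ENNReal.ofReal l := by
    rw [eLpNorm_exponent_top]
    refine eLpNormEssSup_le_of_ae_bound (Filter.Eventually.of_forall fun x => ?_)
    rw [Real.norm_eq_abs, abs_of_nonneg (autoc_nonneg hP x)]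
    exact autoc_le hl hle x
  -- L1 by L2
  have h12 : eLpNorm (autoc P) 1 volume ≤ eLpNorm (autoc P) 2 volume * (volume U) ^ (1 / 2 : ℝ) := by
    have hsupp : Function.support (autoc P) ⊆ U := by
      intro x hx
      by_contra hxU
      exact hx (autoc_eq_zero hS hxU)
    have e1 : eLpNorm (autoc P) 1 (volume.restrict U) = eLpNorm (autoc P) 1 volume :=
      eLpNorm_restrict_eq_of_support_subset hsupp
    have e2 : eLpNorm (autoc P) 2 (volume.restrict U) = eLpNorm (autoc P) 2 volume :=
      eLpNorm_restrict_eq_of_support_subset hsupp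
    have := eLpNorm_le_eLpNorm_mul_rpow_measure_univ (p := 1) (q := 2) (μ := volume.restrict U)
      (by norm_num) (hmeas.restrict)
    rw [e1, e2] at this
    refine this.trans (le_of_eq ?_)
    congr 1
    simp only [Measure.restrict_apply MeasurableSet.univ, Set.univ_inter]
    norm_num
  have hsq : eLpNorm (autoc P) 1 volume ^ 2 ≤ eLpNorm (autoc P) 2 volume ^ 2 * volume U := by
    calc eLpNorm (autoc P) 1 volume ^ 2
        ≤ (eLpNorm (autoc P) 2 volume * (volume U) ^ (1 / 2 : ℝ)) ^ 2 := by gcongr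
      _ = eLpNorm (autoc P) 2 volume ^ 2 * ((volume U) ^ (1 / 2 : ℝ)) ^ 2 := by rw [mul_pow]
      _ = eLpNorm (autoc P) 2 volume ^ 2 * volume U := by
        congr 1
        rw [← ENNReal.rpow_natCast, ← ENNReal.rpow_mul]
        norm_num
  have hM : 0 < (P.eval 1) ^ 2 := by
    refine lt_of_le_of_lt ?_ hbig
    have : 0 ≤ 1 - c := by linarith
    positivity
  have hfin : ENNReal.ofReal ((P.eval 1) ^ 2) ^ 2 ≤
      ENNReal.ofReal (1 - c) * ENNReal.ofReal ((P.eval 1) ^ 2) * ENNReal.ofReal l * (S.card : ENNReal) := by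
    calc ENNReal.ofReal ((P.eval 1) ^ 2) ^ 2 = eLpNorm (autoc P) 1 volume ^ 2 := by rw [h1]
      _ ≤ eLpNorm (autoc P) 2 volume ^ 2 * volume U := hsq
      _ ≤ (ENNReal.ofReal (1 - c) * eLpNorm (autoc P) 1 volume * eLpNorm (autoc P) ⊤ volume)
          * volume U := by gcongr
      _ ≤ (ENNReal.ofReal (1 - c) * ENNReal.ofReal ((P.eval 1) ^ 2) * ENNReal.ofReal l)
          * (S.card : ENNReal) := by
        rw [h1]; gcongr
  have h1c : 0 ≤ 1 - c := by linarith
  have hreal : ((P.eval 1) ^ 2) ^ 2 ≤ (1 - c) * ((P.eval 1) ^ 2) * l * S.card := by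
    rw [← ENNReal.ofReal_pow hM.le, ← ENNReal.ofReal_mul h1c, ← ENNReal.ofReal_mul (by positivity),
      ← ENNReal.ofReal_natCast, ← ENNReal.ofReal_mul (by positivity)] at hfin
    rwa [ENNReal.ofReal_le_ofReal_iff (by positivity)] at hfin
  nlinarith [mul_pos hM (sub_pos.2 hbig)]

end Pool.Agent.MP7c1d9a
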