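import Pool.Agent.Lib.MP_7c1d9a_an.Comb
import Pool.Agent.Lib.MP_7c1d9a_an.Params
import Pool.Agent.Lib.MP_7c1d9a_an.Step

/-!
Assembly: for every `0 < c < 1` there is a polynomial whose step function violates the improved
inequality with constant `c`.
-/

set_option autoImplicit false

open Finset Polynomial Nat MeasureTheory

namespace Pool.Agent.MP7c1d9a

theorem exists_violating {c : ℝ} (hc0 : 0 < c) (hc1 : c < 1) :
    ∃ P : ℝ[X], (∀ m, 0 ≤ P.coeff m) ∧
      ¬ (eLpNorm (fun x : ℝ => ∫ t : ℝ, stp P t * stp P (x - t)) 2 volume ^ 2 ≤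
          ENNReal.ofReal (1 - c) *
            eLpNorm (fun x : ℝ => ∫ t : ℝ, stp P t * stp P (x - t)) 1 volume *
            eLpNorm (fun x : ℝ => ∫ t : ℝ, stp P t * stp P (x - t)) ⊤ volume) := by
  obtain ⟨N, n, n', T, a, l, ha, hT, hl, hal, hbig⟩ := exists_params hc0 hc1
  set A : Finset (Fin (2 * N + 1)) := Finset.Ioc 0 ⟨N, by omega⟩ with hA
  set B : Finset (Fin (2 * N + 1)) := Finset.Ioc ⟨N, by omega⟩ ⟨2 * N, by omega⟩ with hB
  have cA : A.card = N := by rw [hA, Fin.card_Ioc]; simp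
  have cB : B.card = N := by rw [hB, Fin.card_Ioc]; simp; omega
  have h0A : (0 : Fin (2 * N + 1)) ∉ A := by rw [hA, Finset.mem_Ioc]; simp
  have h0B : (0 : Fin (2 * N + 1)) ∉ B := by
    rw [hB, Finset.mem_Ioc, Fin.lt_def]; simp
  have hAB : Disjoint A B := by
    rw [Finset.disjoint_left]
    intro i hiA hiB
    rw [hA, Finset.mem_Ioc] at hiA
    rw [hB, Finset.mem_Ioc] at hiB
    exact absurd hiA.2 (not_le.2 hiB.1)
  set D := 2 * n + 2 * n' + 2 * T + 2 with hD
  set P := bigP A B D T n n' a with hP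
  have hPn : ∀ m, 0 ≤ P.coeff m := by
    intro m; simpa using cnn_bigP A B D T n n' a ha m
  obtain ⟨hle, S, hScard, hS⟩ := bigP_main (D := D) h0A h0B hAB (by omega) a ha hT hl hal
  refine ⟨P, hPn, stp_violates hPn hl hle hS hc1 ?_⟩
  have hev : P.eval 1 = (∑ k ∈ range (T + 1), a k) * (N : ℝ) ^ (n + n') :=
    bigP_eval_one A B D T n n' a cA cB hT
  rw [hev]
  refine lt_of_le_of_lt ?_ hbig
  rw [card_idx, cA, cB] at hScard
  have h1c : 0 ≤ 1 - c := by linarith
  exact mul_le_mul_of_nonneg_left (by exact_mod_cast hScard) (by positivity)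

theorem not_improved_holder :
    ¬ (∃ c : ℝ, 0 < c ∧
      ∀ f : ℝ → ℝ, (∀ x, 0 ≤ f x) → MemLp f 1 volume → MemLp f 2 volume →
        eLpNorm (fun x : ℝ => ∫ t : ℝ, f t * f (x - t)) 2 volume ^ 2 ≤
          ENNReal.ofReal (1 - c) *
            eLpNorm (fun x : ℝ => ∫ t : ℝ, f t * f (x - t)) 1 volume *
            eLpNorm (fun x : ℝ => ∫ t : ℝ, f t * f (x - t)) ⊤ volume) := by
  rintro ⟨c, hc0, hc⟩
  have hc'0 : 0 < min c (1 / 2) := lt_min hc0 (by norm_num)
  have hc'1 : min c (1 / 2) < 1 := lt_of_le_of_lt (min_le_right _ _) (by norm_num)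
  obtain ⟨P, hP, hviol⟩ := exists_violating hc'0 hc'1
  apply hviol
  refine (hc (stp P) (stp_nonneg hP) (stp_memLp P 1) (stp_memLp P 2)).trans ?_
  have : ENNReal.ofReal (1 - c) ≤ ENNReal.ofReal (1 - min c (1 / 2)) :=
    ENNReal.ofReal_le_ofReal (by linarith [min_le_left c (1 / 2)])
  gcongr

end Pool.Agent.MP7c1d9a
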