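import Pool.Agent.Lib.MP_7c1d9a_an.Main

/-!
The violating functions with honest real integrals and suprema.
-/

set_option autoImplicit false

open Finset Polynomial Nat MeasureTheory

namespace Pool.Agent.MP7c1d9a

lemma stp_eq_zero_of_abs (P : ℝ[X]) {x : ℝ} (hx : (P.natDegree : ℝ) + 1 < |x|) : stp P x = 0 := by
  unfold stp
  split_ifs with h0
  · rw [abs_of_nonneg h0] at hx
    apply coeff_eq_zero_of_natDegree_lt
    have h1 : P.natDegree + 1 ≤ ⌊x⌋₊ := by
      apply Nat.le_floor
      push_cast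
      exact hx.le
    omega
  · rfl

lemma stp_bound (P : ℝ[X]) : ∃ B : ℝ, ∀ x, stp P x ≤ B := by
  refine ⟨∑ m ∈ range (P.natDegree + 1), |P.coeff m|, fun x => ?_⟩
  have h0 : 0 ≤ ∑ m ∈ range (P.natDegree + 1), |P.coeff m| := sum_nonneg fun _ _ => abs_nonneg _
  apply stp_le h0
  intro m
  by_cases hm : m < P.natDegree + 1
  · exact (le_abs_self _).trans
      (Finset.single_le_sum (f := fun m => |P.coeff m|) (fun _ _ => abs_nonneg _)
        (mem_range.2 hm))
  · rw [coeff_eq_zero_of_natDegree_lt (by omega)]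
    exact h0

/-- The autoconvolution as an integral over an interval of length one. -/
lemma autoc_eq_interval (P : ℝ[X]) (x : ℝ) :
    autoc P x = ∫ s in (x - 1)..x, stp (P * P) s := by
  unfold autoc
  rw [stp_conv]
  have h1 : ∀ t, stp (monomial 0 1) t * stp (P * P) (x - t) =
      (Set.Ico (0 : ℝ) 1).indicator (fun t => stp (P * P) (x - t)) t := by
    intro t
    rw [stp_monomial]
    simp only [Nat.cast_zero, zero_add]
    by_cases ht : t ∈ Set.Ico (0 : ℝ) 1
    · rw [Set.indicator_of_mem ht, Set.indicator_of_mem ht, one_mul]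
    · rw [Set.indicator_of_notMem ht, Set.indicator_of_notMem ht, zero_mul]
  simp only [h1]
  rw [integral_indicator measurableSet_Ico, integral_Ico_eq_integral_Ioc,
    ← intervalIntegral.integral_of_le (zero_le_one),
    intervalIntegral.integral_comp_sub_left (fun t => stp (P * P) t) x, sub_zero]

lemma autoc_continuous (P : ℝ[X]) : Continuous (autoc P) := by
  have hi : ∀ a b : ℝ, IntervalIntegrable (stp (P * P)) volume a b := fun a b =>
    (stp_integrable (P * P)).intervalIntegrable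
  have h1 : autoc P = fun x => (∫ s in (0 : ℝ)..x, stp (P * P) s) -
      ∫ s in (0 : ℝ)..(x - 1), stp (P * P) s := by
    funext x
    rw [autoc_eq_interval, intervalIntegral.integral_interval_sub_left (hi _ _) (hi _ _)]
  rw [h1]
  have h2 : Continuous fun x => ∫ s in (0 : ℝ)..x, stp (P * P) s :=
    intervalIntegral.continuous_primitive hi 0
  exact h2.sub (h2.comp (continuous_id.sub continuous_const))

lemma autoc_sq_integrable {P : ℝ[X]} (hP : ∀ m, 0 ≤ P.coeff m) {l : ℝ} (hl : 0 ≤ l)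
    (hle : ∀ m, (P * P).coeff m ≤ l) : Integrable (fun x => autoc P x ^ 2) volume := by
  refine Integrable.mono' ((autoc_integrable P).const_mul l)
    ((autoc_continuous P).pow 2).aestronglyMeasurable (Filter.Eventually.of_forall fun x => ?_)
  have h0 := autoc_nonneg hP x
  have h1 := autoc_le hl hle x
  rw [Real.norm_eq_abs, abs_of_nonneg (by positivity), sq]
  exact mul_le_mul_of_nonneg_right h1 h0

/-- Real form of the main analytic lemma. -/
theorem stp_strict_real {P : ℝ[X]} (hP : ∀ m, 0 ≤ P.coeff m) {l : ℝ} (hl : 0 ≤ l)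
    (hle : ∀ m, (P * P).coeff m ≤ l) {S : Finset ℕ}
    (hS : ∀ m, (P * P).coeff m ≠ 0 → m ∈ S ∧ m + 1 ∈ S) {c : ℝ} (hc : c < 1)
    (hbig : (1 - c) * l * S.card < (P.eval 1) ^ 2) :
    0 < ∫ x, autoc P x ∧ (1 - c) * (∫ x, autoc P x) * l < ∫ x, autoc P x ^ 2 := by
  have hint := autoc_integral P
  have h1c : 0 < 1 - c := by linarith
  have hM : 0 < (P.eval 1) ^ 2 := lt_of_le_of_lt (by positivity) hbig
  set U : Set ℝ := ⋃ m ∈ S, Set.Ico (m : ℝ) (m + 1) with hU
  have hUm : volume U ≤ (S.card : ENNReal) := measure_cells_le S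
  have hUmeas : MeasurableSet U :=
    Finset.measurableSet_biUnion _ fun _ _ => measurableSet_Ico
  have hUr : volume.real U ≤ (S.card : ℝ) := by
    have := ENNReal.toReal_mono (ENNReal.natCast_ne_top _) hUm
    simpa [Measure.real] using this
  have hUfin : volume U ≠ ⊤ := ne_top_of_le_ne_top (ENNReal.natCast_ne_top _) hUm
  -- the set `S` is nonempty
  have hSpos : (0 : ℝ) < S.card := by
    rcases S.eq_empty_or_nonempty with h0 | h0
    · exfalso
      have hz : ∀ x, autoc P x = 0 := fun x => autoc_eq_zero hS (by simp [h0])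
      have : ∫ x, autoc P x = 0 := by simp [hz]
      rw [hint] at this
      linarith
    · exact_mod_cast h0.card_pos
  set lam : ℝ := (P.eval 1) ^ 2 / S.card with hlam
  have hpt : ∀ x, 2 * lam * autoc P x - lam ^ 2 * U.indicator (fun _ => (1 : ℝ)) x ≤
      autoc P x ^ 2 := by
    intro x
    by_cases hx : x ∈ U
    · rw [Set.indicator_of_mem hx]
      nlinarith [sq_nonneg (autoc P x - lam)]
    · rw [Set.indicator_of_notMem hx, autoc_eq_zero hS hx]
      simp
  have hind : Integrable (fun x => U.indicator (fun _ => (1 : ℝ)) x) volume := by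
    rw [integrable_indicator_iff hUmeas]
    exact integrableOn_const hUfin
  have hi1 : Integrable (fun x => 2 * lam * autoc P x) volume := (autoc_integrable P).const_mul _
  have hi2 : Integrable (fun x => lam ^ 2 * U.indicator (fun _ => (1 : ℝ)) x) volume :=
    hind.const_mul _
  have h3 : ∫ x, (2 * lam * autoc P x - lam ^ 2 * U.indicator (fun _ => (1 : ℝ)) x) ≤
      ∫ x, autoc P x ^ 2 :=
    integral_mono (hi1.sub hi2) (autoc_sq_integrable hP hl hle) hpt
  rw [integral_sub hi1 hi2, integral_const_mul, integral_const_mul, hint,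
    integral_indicator_const _ hUmeas, smul_eq_mul, mul_one] at h3
  have h4 : lam ^ 2 * volume.real U ≤ lam ^ 2 * S.card :=
    mul_le_mul_of_nonneg_left hUr (sq_nonneg _)
  have h5 : lam * S.card = (P.eval 1) ^ 2 := by
    rw [hlam, div_mul_cancel₀ _ hSpos.ne']
  have h6 : lam ^ 2 * S.card = lam * (P.eval 1) ^ 2 := by
    rw [← h5]; ring
  have hlpos : 0 < lam := div_pos hM hSpos
  have h7 : lam * (P.eval 1) ^ 2 ≤ ∫ x, autoc P x ^ 2 := by linarith
  have h8 : (1 - c) * l < lam := by
    rw [hlam, lt_div_iff₀ hSpos]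
    exact hbig
  refine ⟨by rw [hint]; exact hM, ?_⟩
  rw [hint]
  calc (1 - c) * (P.eval 1) ^ 2 * l = ((1 - c) * l) * (P.eval 1) ^ 2 := by ring
    _ < lam * (P.eval 1) ^ 2 := mul_lt_mul_of_pos_right h8 hM
    _ ≤ _ := h7

/-- For every `c > 0` a bounded, compactly supported function violates the inequality. -/
theorem exists_real {c : ℝ} (hc0 : 0 < c) :
    ∃ f : ℝ → ℝ, (∀ x, 0 ≤ f x) ∧ Measurable f ∧ (∃ B : ℝ, ∀ x, f x ≤ B) ∧
      (∃ R : ℝ, ∀ x, R < |x| → f x = 0) ∧ Integrable f volume ∧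
      Integrable (fun x => f x ^ 2) volume ∧
      Continuous (fun x => ∫ t, f t * f (x - t)) ∧
      Integrable (fun x => ∫ t, f t * f (x - t)) volume ∧
      Integrable (fun x => (∫ t, f t * f (x - t)) ^ 2) volume ∧
      BddAbove (Set.range fun x => ∫ t, f t * f (x - t)) ∧
      (0 < ∫ x, ∫ t, f t * f (x - t)) ∧
      (1 - c) * (∫ x, ∫ t, f t * f (x - t)) * (⨆ x, ∫ t, f t * f (x - t)) <
        ∫ x, (∫ t, f t * f (x - t)) ^ 2 := by
  set c' : ℝ := min c (1 / 2) with hc'
  have hc'0 : 0 < c' := lt_min hc0 (by norm_num)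
  have hc'1 : c' < 1 := lt_of_le_of_lt (min_le_right _ _) (by norm_num)
  obtain ⟨N, n, n', T, a, l, ha, hT, hl, hal, hbig⟩ := exists_params hc'0 hc'1
  set A : Finset (Fin (2 * N + 1)) := Finset.Ioc 0 ⟨N, by omega⟩ with hA
  set B : Finset (Fin (2 * N + 1)) := Finset.Ioc ⟨N, by omega⟩ ⟨2 * N, by omega⟩ with hB
  have cA : A.card = N := by rw [hA, Fin.card_Ioc]; simp
  have cB : B.card = N := by rw [hB, Fin.card_Ioc]; simp; omega
  have h0A : (0 : Fin (2 * N + 1)) ∉ A := by rw [hA, Finset.mem_Ioc]; simp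
  have h0B : (0 : Fin (2 * N + 1)) ∉ B := by
    rw [hB, Finset.mem_Ioc, Fin.lt_def]; simp
  have hAB : Disjoint A B := by
    rw [Finset.disjoint_left]
    intro i hiA hiB
    rw [hA, Finset.mem_Ioc] at hiA
    rw [hB, Finset.mem_Ioc] at hiB
    exact absurd hiA.2 (not_le.2 hiB.1)
  set D := 2 * n + 2 * n' + 2 * T + 2 with hD
  set P := bigP A B D T n n' a with hP
  have hPn : ∀ m, 0 ≤ P.coeff m := by
    intro m; simpa using cnn_bigP A B D T n n' a ha m
  obtain ⟨hle, S, hScard, hS⟩ := bigP_main (D := D) h0A h0B hAB (by omega) a ha hT hl hal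
  have hev : P.eval 1 = (∑ k ∈ range (T + 1), a k) * (N : ℝ) ^ (n + n') :=
    bigP_eval_one A B D T n n' a cA cB hT
  have hbig' : (1 - c') * l * S.card < (P.eval 1) ^ 2 := by
    rw [hev]
    refine lt_of_le_of_lt ?_ hbig
    rw [card_idx, cA, cB] at hScard
    have h1c : 0 ≤ 1 - c' := by linarith
    exact mul_le_mul_of_nonneg_left (by exact_mod_cast hScard) (by positivity)
  obtain ⟨hpos, hstrict⟩ := stp_strict_real hPn hl hle hS hc'1 hbig'
  have hbdd : ∀ x, autoc P x ≤ l := autoc_le hl hle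
  have hsup : (⨆ x, autoc P x) ≤ l := ciSup_le hbdd
  have hsup0 : 0 ≤ ⨆ x, autoc P x := Real.iSup_nonneg (autoc_nonneg hPn)
  refine ⟨stp P, stp_nonneg hPn, stp_measurable P, stp_bound P,
    ⟨P.natDegree + 1, fun x hx => stp_eq_zero_of_abs P hx⟩, stp_integrable P, ?_,
    autoc_continuous P, autoc_integrable P, autoc_sq_integrable hPn hl hle,
    ⟨l, ?_⟩, hpos, ?_⟩
  · exact (stp_memLp P 2).integrable_sq
  · rintro _ ⟨x, rfl⟩
    exact hbdd x
  · change (1 - c) * (∫ x, autoc P x) * (⨆ x, autoc P x) < ∫ x, autoc P x ^ 2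
    refine lt_of_le_of_lt ?_ hstrict
    have h1 : (1 - c) * (∫ x, autoc P x) * (⨆ x, autoc P x) ≤
        (1 - c') * (∫ x, autoc P x) * (⨆ x, autoc P x) := by
      apply mul_le_mul_of_nonneg_right _ hsup0
      apply mul_le_mul_of_nonneg_right _ hpos.le
      have := min_le_left c (1 / 2)
      linarith
    refine h1.trans ?_
    apply mul_le_mul_of_nonneg_left hsup
    have : 0 < 1 - c' := by linarith
    positivity

end Pool.Agent.MP7c1d9a
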