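import Mathlib

/-!
Discrete arcsine weights: `wt k = binom(2k,k)/4^k`, with `wt * wt = 1`, and the polynomials
`arcPoly k = ∑_{i+j=k} wt i * wt j * X^i`.
-/

set_option autoImplicit false

open Finset Polynomial

namespace Pool.Agent.MP7c1d9a

/-- The weights `binom(2k,k)/4^k`. -/
noncomputable def wt (k : ℕ) : ℝ := (Nat.centralBinom k : ℝ) / 4 ^ k

lemma wt_zero : wt 0 = 1 := by simp [wt]

lemma wt_nonneg (k : ℕ) : 0 ≤ wt k := by unfold wt; positivity

lemma wt_succ (k : ℕ) : ((k : ℝ) + 1) * wt (k + 1) = ((k : ℝ) + 1 / 2) * wt k := by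
  have h := Nat.succ_mul_centralBinom_succ k
  have h' : ((k : ℝ) + 1) * (Nat.centralBinom (k + 1) : ℝ)
      = 2 * (2 * (k : ℝ) + 1) * (Nat.centralBinom k : ℝ) := by exact_mod_cast h
  unfold wt
  rw [pow_succ]
  have h4 : (4 : ℝ) ^ k ≠ 0 := by positivity
  field_simp
  linarith

lemma wt_conv (n : ℕ) : ∑ p ∈ antidiagonal n, wt p.1 * wt p.2 = 1 := by
  -- symmetrised first moment
  have sym : ∀ n : ℕ, ∑ p ∈ antidiagonal n, (p.1 : ℝ) * (wt p.1 * wt p.2)
      = (n : ℝ) / 2 * ∑ p ∈ antidiagonal n, wt p.1 * wt p.2 := by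
    intro n
    have h1 : ∑ p ∈ antidiagonal n, (p.1 : ℝ) * (wt p.1 * wt p.2)
        = ∑ p ∈ antidiagonal n, (p.2 : ℝ) * (wt p.1 * wt p.2) := by
      rw [← Finset.Nat.sum_antidiagonal_swap]
      refine Finset.sum_congr rfl fun p _ => ?_
      simp [mul_comm]
    have h2 : ∑ p ∈ antidiagonal n, (p.1 : ℝ) * (wt p.1 * wt p.2)
        + ∑ p ∈ antidiagonal n, (p.2 : ℝ) * (wt p.1 * wt p.2)
        = (n : ℝ) * ∑ p ∈ antidiagonal n, wt p.1 * wt p.2 := by
      rw [← Finset.sum_add_distrib, Finset.mul_sum]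
      refine Finset.sum_congr rfl fun p hp => ?_
      have : (p.1 : ℝ) + p.2 = n := by exact_mod_cast (mem_antidiagonal.1 hp)
      rw [← this]; ring
    linarith
  induction n with
  | zero => simp [wt_zero]
  | succ n ih =>
    have h1 := sym (n + 1)
    have h2 : ∑ p ∈ antidiagonal (n + 1), (p.1 : ℝ) * (wt p.1 * wt p.2)
        = ∑ p ∈ antidiagonal n, ((p.1 : ℝ) + 1 / 2) * (wt p.1 * wt p.2) := by
      rw [Finset.Nat.sum_antidiagonal_succ]
      simp only [Nat.cast_zero, zero_mul, zero_add]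
      refine Finset.sum_congr rfl fun p _ => ?_
      have := wt_succ p.1
      push_cast
      calc ((p.1 : ℝ) + 1) * (wt (p.1 + 1) * wt p.2)
          = (((p.1 : ℝ) + 1) * wt (p.1 + 1)) * wt p.2 := by ring
        _ = _ := by rw [this]; ring
    have h3 : ∑ p ∈ antidiagonal n, ((p.1 : ℝ) + 1 / 2) * (wt p.1 * wt p.2)
        = (n : ℝ) / 2 + 1 / 2 := by
      simp only [add_mul, Finset.sum_add_distrib]
      rw [sym n, ← Finset.mul_sum, ih]; ring
    rw [h2, h3] at h1
    push_cast at h1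
    have hn : ((n : ℝ) + 1) / 2 ≠ 0 := by positivity
    field_simp at h1
    linarith

/-- `arcPoly k = ∑_{i+j=k} wt i * wt j * X^i`. -/
noncomputable def arcPoly (k : ℕ) : ℝ[X] :=
  ∑ p ∈ antidiagonal k, C (wt p.1 * wt p.2) * X ^ p.1

lemma arcPoly_conv (s : ℕ) :
    ∑ p ∈ antidiagonal s, arcPoly p.1 * arcPoly p.2 = ∑ y ∈ range (s + 1), (X : ℝ[X]) ^ y := by
  set A : PowerSeries ℝ[X] := PowerSeries.mk (fun k => C (wt k) * X ^ k) with hA
  set B : PowerSeries ℝ[X] := PowerSeries.mk (fun k => C (wt k)) with hB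
  have hAA : A * A = PowerSeries.mk (fun k => (X : ℝ[X]) ^ k) := by
    ext1 n
    rw [PowerSeries.coeff_mul, PowerSeries.coeff_mk]
    simp only [hA, PowerSeries.coeff_mk]
    calc ∑ p ∈ antidiagonal n, C (wt p.1) * X ^ p.1 * (C (wt p.2) * X ^ p.2)
        = ∑ p ∈ antidiagonal n, C (wt p.1 * wt p.2) * (X : ℝ[X]) ^ n := by
          refine Finset.sum_congr rfl fun p hp => ?_
          rw [← mem_antidiagonal.1 hp, pow_add, C_mul]; ring
      _ = X ^ n := by
          rw [← Finset.sum_mul, ← map_sum, wt_conv, C_1, one_mul]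
  have hBB : B * B = PowerSeries.mk (fun _ => (1 : ℝ[X])) := by
    ext1 n
    rw [PowerSeries.coeff_mul, PowerSeries.coeff_mk]
    simp only [hB, PowerSeries.coeff_mk]
    calc ∑ p ∈ antidiagonal n, (C (wt p.1) : ℝ[X]) * C (wt p.2)
        = ∑ p ∈ antidiagonal n, C (wt p.1 * wt p.2) := by
          refine Finset.sum_congr rfl fun p hp => ?_
          rw [C_mul]
      _ = 1 := by rw [← map_sum, wt_conv, C_1]
  have hL : ∀ k, PowerSeries.coeff k (A * B) = arcPoly k := by
    intro k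
    rw [PowerSeries.coeff_mul]
    simp only [hA, hB, PowerSeries.coeff_mk, arcPoly]
    refine Finset.sum_congr rfl fun p hp => ?_
    rw [C_mul]; ring
  have h1 : PowerSeries.coeff s ((A * B) * (A * B))
      = ∑ p ∈ antidiagonal s, arcPoly p.1 * arcPoly p.2 := by
    rw [PowerSeries.coeff_mul]
    simp only [hL]
  have h2 : (A * B) * (A * B) = (A * A) * (B * B) := by ring
  rw [← h1, h2, hAA, hBB, PowerSeries.coeff_mul]
  simp only [PowerSeries.coeff_mk, mul_one]
  rw [Finset.Nat.sum_antidiagonal_eq_sum_range_succ_mk]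

lemma arcPoly_eval_one (k : ℕ) : (arcPoly k).eval 1 = 1 := by
  simp only [arcPoly, eval_finsetSum, eval_mul, eval_C, eval_pow, eval_X, one_pow, mul_one]
  exact wt_conv k

end Pool.Agent.MP7c1d9a
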